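import Pool.Agent.Helper88_SA.StmtP

/-! Module DRIFT: sums over several cycles. -/

namespace SA.H65

open SA

/-- sums over an interval of indices, cycle by cycle -/
theorem sum_cycles (k : ℕ) (q : ℕ → ℤ) (h : ℕ → ℝ) (B : ℝ) (h0 : ∀ i, i < k → 0 ≤ h i)
    (hB : ∀ q0 : ℤ, ∑ i ∈ (Finset.range k).filter (fun i => q i = q0), h i ≤ B) {i1 i2 : ℕ}
    (h12 : i1 ≤ i2) (h2 : i2 ≤ k) (hq : ∀ i j, i ≤ j → j ≤ k → q i ≤ q j) :
    ∑ i ∈ Finset.Ico i1 i2, h i ≤ B * ((q i2 : ℝ) - q i1 + 1) := by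
  classical
  have hle := hq i1 i2 h12 h2
  have h3 : ∑ i ∈ Finset.Ico i1 i2, h i ≤ ∑ q0 ∈ Finset.Icc (q i1) (q i2),
      ∑ i ∈ (Finset.range k).filter (fun i => q i = q0), h i := by
    rw [← Finset.sum_fiberwise_of_maps_to (s := Finset.Ico i1 i2) (t := Finset.Icc (q i1) (q i2))
      (g := q) (f := h)]
    · refine Finset.sum_le_sum fun q0 _ => ?_
      refine Finset.sum_le_sum_of_subset_of_nonneg ?_ ?_
      · intro i hi
        rw [Finset.mem_filter, Finset.mem_Ico] at hi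
        exact Finset.mem_filter.2 ⟨Finset.mem_range.2 (by omega), hi.2⟩
      · intro i hi _
        rw [Finset.mem_filter, Finset.mem_range] at hi
        exact h0 i hi.1
    · intro i hi
      rw [Finset.mem_Ico] at hi
      exact Finset.mem_Icc.2 ⟨hq i1 i hi.1 (by omega), hq i i2 hi.2.le h2⟩
  refine h3.trans ?_
  refine (Finset.sum_le_card_nsmul _ _ B fun q0 _ => hB q0).trans (le_of_eq ?_)
  rw [Int.card_Icc, nsmul_eq_mul, mul_comm]
  congr 1
  have h4 : (((q i2 + 1 - q i1).toNat : ℤ) : ℝ) = ((q i2 + 1 - q i1 : ℤ) : ℝ) := by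
    rw [Int.toNat_of_nonneg (by omega)]
  rw [Int.cast_natCast] at h4
  rw [h4]
  push_cast
  ring

theorem drift (hW : WinStmt) (hC : CycbStmt) : DriftStmt := by
  intro T x0 z th ctx k hH i1 i2 h12 h2
  obtain ⟨w1, w2, w3⟩ := hW T x0 z th ctx k hH
  have hmono : ∀ i j, i ≤ j → j ≤ k → cyc T x0 th i ≤ cyc T x0 th j := by
    intro i j hij
    induction j, hij using Nat.le_induction with
    | base => intro _; exact le_rfl
    | succ j hij ih => intro hj; exact (ih (by omega)).trans (w1 j (by omega)).1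
  have hD0 : ∀ i, i < k → 0 ≤ Dh T x0 i := by
    intro i hi
    unfold Dh
    refine div_nonneg ?_ (hH i hi).Cpos.le
    unfold Dn
    exact Finset.sum_nonneg fun j _ => le_max_right _ _
  have hle := hmono i1 i2 h12 h2
  have hdr : |ph T x0 th i1 - ph T x0 th i2 - ((i2 : ℝ) - i1)|
      ≤ 0.027 * ((cyc T x0 th i2 : ℝ) - cyc T x0 th i1 + 1) := by
    have h3 : ∀ m : ℕ, i1 ≤ m → ph T x0 th i1 - ph T x0 th m - ((m : ℝ) - i1) =
        - ∑ i ∈ Finset.Ico i1 m, dph T x0 th i := by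
      intro m hm
      induction m, hm using Nat.le_induction with
      | base => simp
      | succ m hm ih =>
        rw [Finset.sum_Ico_succ_top hm]
        have h4 : dph T x0 th m = ph T x0 th (m + 1) - ph T x0 th m + 1 := rfl
        push_cast
        linarith
    rw [h3 i2 h12, abs_neg]
    refine (Finset.abs_sum_le_sum_abs _ _).trans ?_
    exact sum_cycles k (cyc T x0 th) (fun i => |dph T x0 th i|) 0.027 (fun i _ => abs_nonneg _)
      w3 h12 h2 hmono
  have hP1 : 48.855 ≤ per th := by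
    have := (abs_le.1 ctx.nr.per_enc).1
    norm_num at this ⊢
    linarith
  have hP2 : per th ≤ 48.856 := by
    have := (abs_le.1 ctx.nr.per_enc).2
    norm_num at this ⊢
    linarith
  have hkey : ((cyc T x0 th i2 : ℝ) - cyc T x0 th i1) * (per th - 0.027) ≤
      ((i2 : ℝ) - i1) + 0.027 + per th := by
    have e1 : pp T x0 th i1 = ph T x0 th i1 + cyc T x0 th i1 * per th := rfl
    have e2 : pp T x0 th i2 = ph T x0 th i2 + cyc T x0 th i2 * per th := rfl
    have a1 := (hC T x0 z th ctx i1).1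
    have a2 := (hC T x0 z th ctx i2).2.1
    have a3 := (abs_le.1 hdr).2
    nlinarith
  refine ⟨hle, hdr, ?_, fun h => ?_, fun h => ?_⟩
  · exact sum_cycles k (cyc T x0 th) (Dh T x0) 9.1 hD0 w2 h12 h2 hmono
  · by_contra hc
    push Not at hc
    have h3 : cyc T x0 th i1 + 28 ≤ cyc T x0 th i2 := by omega
    have h4 : (cyc T x0 th i1 : ℝ) + 28 ≤ cyc T x0 th i2 := by exact_mod_cast h3
    have h5 : (i2 : ℝ) ≤ i1 + 1300 := by exact_mod_cast h
    nlinarith
  · by_contra hc
    push Not at hc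
    have h3 : cyc T x0 th i1 + 26 ≤ cyc T x0 th i2 := by omega
    have h4 : (cyc T x0 th i1 : ℝ) + 26 ≤ cyc T x0 th i2 := by exact_mod_cast h3
    have h5 : (i2 : ℝ) ≤ i1 + 1200 := by exact_mod_cast h
    nlinarith

end SA.H65
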