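import Pool.Agent.Helper88_SA.StmtP

/-! Module STATEB: the rest functional is small. -/

namespace SA.H65

open SA

theorem Ebar_nonneg {x0 : ℝ} (h : 0 ≤ x0) : 0 ≤ Ebar x0 := by
  unfold Ebar
  refine add_nonneg (Finset.sum_nonneg fun d hd => ?_) (by norm_num)
  have h1 : (d : ℝ) ≤ 55 := by exact_mod_cast (Finset.mem_Icc.1 hd).2
  have h2 : (0 : ℝ) ≤ 56 - d := by linarith
  positivity

theorem stateB (hE : EbndStmt) (hP : ProdStmt) (hH : HorStmt) : StateBStmt := by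
  intro T x0 z th ctx k hk
  obtain ⟨e1, e2⟩ := hE T x0 z th ctx k hk
  obtain ⟨p1, _, _, p4⟩ := hP T x0 z th ctx k hk
  have hor := hH T x0 z th ctx.Tl ctx.Tu ctx.rt
  obtain ⟨hN, hE0, hE1⟩ := e1 (325 + k) (by omega) (by omega)
  have hR := e2 (325 + k) (by omega) (by omega)
  have hx : 0 < x0 := by have := ctx.nr.x0_lo; linarith
  have hC : 0 < Ck T x0 k := p1 (1525 + k) (by omega) le_rfl
  have hCn : Cn T x0 (325 + k) ≤ 1.003 * (x0 ^ 1200 * Ck T x0 k) := by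
    have := p4 (325 + k) (1525 + k) (by omega) (by omega) le_rfl (by omega)
    rw [show 1525 + k - (325 + k) = 1200 by omega] at this
    rw [mul_comm (x0 ^ 1200)]
    exact this
  have hC0 : 0 < Cn T x0 (325 + k) := p1 (325 + k) (by omega) (by omega)
  obtain ⟨A, hA⟩ : ∃ A, A = x0 ^ 1200 * Ck T x0 k := ⟨_, rfl⟩
  have hA0 : 0 < A := by rw [hA]; positivity
  rw [← hA] at hCn
  obtain ⟨b, hb⟩ : ∃ b, b = brest T x0 z th 1200 := ⟨_, rfl⟩
  rw [← hb] at hor ⊢
  have hEb := Ebar_nonneg hx.le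
  unfold bval
  have t1 : |∑ d ∈ Finset.Icc (1 : ℕ) 55, b.r (56 - d) * Nd T (325 + k) d| ≤
      (∑ d ∈ Finset.Icc (1 : ℕ) 55, |b.r (56 - d)| * (4.2 * x0 ^ (d + 10))) * A := by
    refine (Finset.abs_sum_le_sum_abs _ _).trans ?_
    rw [Finset.sum_mul]
    refine Finset.sum_le_sum fun d hd => ?_
    obtain ⟨h1, h2⟩ := Finset.mem_Icc.1 hd
    obtain ⟨n1, n2⟩ := hN d h1 h2
    rw [abs_mul, abs_of_nonneg n1, mul_assoc]
    refine mul_le_mul_of_nonneg_left ?_ (abs_nonneg _)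
    have h3 : 0 < x0 ^ (d + 10) := by positivity
    calc Nd T (325 + k) d ≤ 4.05 * x0 ^ (d + 10) * Cn T x0 (325 + k) := n2
      _ ≤ 4.05 * x0 ^ (d + 10) * (1.003 * A) := by gcongr
      _ = (4.05 * 1.003) * (x0 ^ (d + 10) * A) := by ring
      _ ≤ 4.2 * (x0 ^ (d + 10) * A) := by
          refine mul_le_mul_of_nonneg_right (by norm_num) (by positivity)
      _ = 4.2 * x0 ^ (d + 10) * A := by ring
  have t2 : |b.R * (gr T (325 + k)).R| ≤ |b.R| * (39 * Ebar x0) * A := by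
    rw [abs_mul, mul_assoc]
    refine mul_le_mul_of_nonneg_left ?_ (abs_nonneg _)
    calc |(gr T (325 + k)).R| ≤ 38 * Ebar x0 * Cn T x0 (325 + k) := hR
      _ ≤ 38 * Ebar x0 * (1.003 * A) := by gcongr
      _ = (38 * 1.003) * (Ebar x0 * A) := by ring
      _ ≤ 39 * (Ebar x0 * A) := by
          refine mul_le_mul_of_nonneg_right (by norm_num) (by positivity)
      _ = 39 * Ebar x0 * A := by ring
  have t3 : |b.E * (gr T (325 + k)).E| ≤ |b.E| * Ebar x0 * A := by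
    rw [abs_mul, mul_assoc]
    refine mul_le_mul_of_nonneg_left ?_ (abs_nonneg _)
    rw [abs_of_nonneg hE0]
    calc (gr T (325 + k)).E ≤ 0.9643 * Ebar x0 * Cn T x0 (325 + k) := hE1
      _ ≤ 0.9643 * Ebar x0 * (1.003 * A) := by gcongr
      _ = (0.9643 * 1.003) * (Ebar x0 * A) := by ring
      _ ≤ 1 * (Ebar x0 * A) := by
          refine mul_le_mul_of_nonneg_right (by norm_num) (by positivity)
      _ = Ebar x0 * A := by ring
  refine (abs_add_le _ _).trans ?_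
  refine (add_le_add ((abs_add_le _ _).trans (add_le_add t1 t2)) t3).trans ?_
  rw [← add_mul, ← add_mul, hA]
  calc _ = x0 ^ 1200 * (∑ d ∈ Finset.Icc (1 : ℕ) 55, |b.r (56 - d)| * (4.2 * x0 ^ (d + 10))
        + |b.R| * (39 * Ebar x0) + |b.E| * Ebar x0) * Ck T x0 k := by ring
    _ ≤ 4.5 / 10 ^ 4 * Ck T x0 k := mul_le_mul_of_nonneg_right hor hC.le

end SA.H65
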