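import Pool.Agent.Helper88_SA.StmtP

/-! Module WIN: the windows. -/

namespace SA.H65

open SA

theorem pass_eq (F : ℤ → ℕ) (c0 : ℤ) :
    pass F c0 = ∑ j ∈ Finset.range 11, max3 F (c0 - 8 * j) := by
  simp [pass, List.range_succ, Finset.sum_range_succ]

theorem le_max3 (F : ℤ → ℕ) (c c' : ℤ) (h1 : c' ≤ c + 1) (h2 : c - 1 ≤ c') :
    F c' ≤ max3 F c := by
  unfold max3
  rcases (by omega : c' = c - 1 ∨ c' = c ∨ c' = c + 1) with h | h | h
  · rw [h]; exact le_max_left _ _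
  · rw [h]; exact (le_max_left _ _).trans (le_max_right _ _)
  · rw [h]; exact (le_max_right _ _).trans (le_max_right _ _)

theorem Dt_out {c : ℤ} (h : c < -47 ∨ 24 ≤ c) : Dt c = 0 := by
  unfold Dt
  rw [if_neg (by omega)]

/-- the product of the tables -/
def GG (c : ℤ) : ℕ := drt c * Dt c

theorem GG_out {c : ℤ} (h : c < -47 ∨ 24 ≤ c) : GG c = 0 := by
  unfold GG
  rw [Dt_out h, mul_zero]

theorem GG_le (hb : IntPass) (c : ℤ) : GG c ≤ 27 * 10 ^ 12 := by
  by_cases h : c < -47 ∨ 24 ≤ c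
  · rw [GG_out h]; exact Nat.zero_le _
  · obtain ⟨j, hj1, hj2, hj3⟩ : ∃ j : ℕ, j < 11 ∧ 15 ≤ c + 8 * j ∧ c + 8 * j < 24 :=
      ⟨((23 - c) / 8).toNat, by omega, by omega, by omega⟩
    have h1 := hb.passR (c + 8 * j) hj2 hj3
    have h2 : pass GG (c + 8 * j) ≤ 27 * 10 ^ 12 := h1
    rw [pass_eq] at h2
    refine le_trans ?_ h2
    refine le_trans ?_ (Finset.single_le_sum (f := fun i : ℕ => max3 GG (c + 8 * j - 8 * i))
      (fun _ _ => Nat.zero_le _) (Finset.mem_range.2 hj1))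
    exact le_max3 _ _ _ (by omega) (by omega)

/-- the data used -/
structure Wd (k : ℕ) (P : ℝ) (f : ℕ → ℝ) (q : ℕ → ℤ) (p : ℕ → ℝ) (c : ℕ → ℤ)
    (D s : ℕ → ℝ) : Prop where
  P1 : 48.8 ≤ P
  hp : ∀ i, p i = f i + q i * P
  hs : ∀ i, s i = f (i + 1) - f i + 1
  lo : ∀ i, 11 - P ≤ p i
  hi : ∀ i, p i < 11
  c1 : ∀ i, (c i : ℝ) / 8 ≤ p i
  c2 : ∀ i, p i < ((c i : ℝ) + 1) / 8
  c0 : 24 ≤ c 0
  D0 : ∀ i, i < k → 0 ≤ D i
  D1 : ∀ i, i < k → D i ≤ (Dt (c i) : ℝ) / 10 ^ 6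
  s1 : ∀ i, i < k → |s i| ≤ (drt (c i) : ℝ) / 10 ^ 9 * D i

section

variable {k : ℕ} {P : ℝ} {f : ℕ → ℝ} {q : ℕ → ℤ} {p : ℕ → ℝ} {c : ℕ → ℤ} {D s : ℕ → ℝ}

theorem Wd.s2 (w : Wd k P f q p c D s) {i : ℕ} (hi : i < k) :
    |s i| ≤ (GG (c i) : ℝ) / 10 ^ 15 := by
  refine (w.s1 i hi).trans ?_
  have h1 : (0 : ℝ) ≤ (drt (c i) : ℝ) / 10 ^ 9 := by positivity
  refine (mul_le_mul_of_nonneg_left (w.D1 i hi) h1).trans (le_of_eq ?_)
  unfold GG
  push_cast
  ring

theorem Wd.s3 (w : Wd k P f q p c D s) (hb : IntPass) {i : ℕ} (hi : i < k) :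
    |s i| ≤ 0.027 := by
  refine (w.s2 hi).trans ?_
  have h1 : (GG (c i) : ℝ) ≤ 27 * 10 ^ 12 := by exact_mod_cast GG_le hb (c i)
  rw [div_le_iff₀ (by positivity)]
  refine h1.trans ?_
  norm_num

theorem Wd.mono1 (w : Wd k P f q p c D s) (hb : IntPass) {i : ℕ} (hi : i < k) :
    q i ≤ q (i + 1) ∧ q (i + 1) ≤ q i + 1 := by
  have h1 := abs_le.1 (w.s3 hb hi)
  have h2 := w.hs i
  have h3 := w.hp i
  have h4 := w.hp (i + 1)
  have h5 := w.lo i
  have h6 := w.hi i
  have h7 := w.lo (i + 1)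
  have h8 := w.hi (i + 1)
  have hP := w.P1
  constructor
  · by_contra hc
    push Not at hc
    have h9 : q (i + 1) + 1 ≤ q i := by omega
    have h10 : (q (i + 1) : ℝ) + 1 ≤ q i := by exact_mod_cast h9
    nlinarith
  · by_contra hc
    push Not at hc
    have h9 : q i + 2 ≤ q (i + 1) := by omega
    have h10 : (q i : ℝ) + 2 ≤ q (i + 1) := by exact_mod_cast h9
    nlinarith

theorem Wd.mono (w : Wd k P f q p c D s) (hb : IntPass) {i j : ℕ} (hij : i ≤ j) (hj : j ≤ k) :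
    q i ≤ q j := by
  induction j, hij using Nat.le_induction with
  | base => exact le_rfl
  | succ j hij ih => exact (ih (by omega)).trans (w.mono1 hb (by omega)).1

/-- the first index of the window -/
theorem Wd.first (w : Wd k P f q p c D s) (hb : IntPass) {i0 : ℕ} (hi0 : i0 < k)
    (hc : c i0 ≤ 23) (hmin : ∀ i, i < i0 → q i = q i0 → 24 ≤ c i) : 15 ≤ c i0 := by
  have h0 : i0 ≠ 0 := by
    rintro rfl
    have := w.c0
    omega
  obtain ⟨i, rfl⟩ := Nat.exists_eq_succ_of_ne_zero h0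
  have hi : i < k := by omega
  obtain ⟨hm1, hm2⟩ := w.mono1 hb hi
  have h1 := abs_le.1 (w.s3 hb hi)
  have h2 := w.hs i
  have h3 := w.hp i
  have h4 := w.hp (i + 1)
  have h5 := w.lo i
  have hcl := w.c2 (i + 1)
  rw [Nat.succ_eq_add_one] at *
  rcases (by omega : q (i + 1) = q i + 1 ∨ q (i + 1) = q i) with h | h
  · have h' : (q (i + 1) : ℝ) = q i + 1 := by exact_mod_cast h
    rw [h'] at h4
    have h6 : (9 : ℝ) ≤ p (i + 1) := by nlinarith
    have h7 : (23 : ℝ) < (c (i + 1) : ℝ) := by linarith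
    have h8 : (23 : ℤ) < c (i + 1) := by exact_mod_cast h7
    omega
  · have h9 := hmin i (by omega) h.symm
    have h10 : (GG (c i) : ℝ) = 0 := by rw [GG_out (Or.inr h9)]; simp
    have h11 := w.s2 hi
    rw [h10, zero_div] at h11
    have h12 : s i = 0 := abs_nonpos_iff.1 h11
    have h' : (q (i + 1) : ℝ) = q i := by exact_mod_cast h
    rw [h'] at h4
    have h13 : p (i + 1) = p i - 1 := by linarith
    have h14 := w.c1 i
    have h15 : (24 : ℝ) ≤ c i := by exact_mod_cast h9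
    have h16 : (14 : ℝ) < (c (i + 1) : ℝ) := by linarith
    have h17 : (14 : ℤ) < c (i + 1) := by exact_mod_cast h16
    omega

/-- the bounds along one passage -/
def bnd (F : ℤ → ℕ) (c0 : ℤ) (j : ℕ) : ℝ := if j < 11 then (max3 F (c0 - 8 * j) : ℝ) else 0

theorem bnd_nonneg (F : ℤ → ℕ) (c0 : ℤ) (j : ℕ) : 0 ≤ bnd F c0 j := by
  unfold bnd
  split_ifs
  · positivity
  · exact le_rfl

theorem sum_bnd (F : ℤ → ℕ) (c0 : ℤ) (m : ℕ) :
    ∑ j ∈ Finset.range m, bnd F c0 j ≤ (pass F c0 : ℝ) := by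
  rw [pass_eq]
  push_cast
  unfold bnd
  rw [← Finset.sum_filter]
  refine Finset.sum_le_sum_of_subset_of_nonneg (fun j hj => ?_) (fun j _ _ => by positivity)
  exact Finset.mem_range.2 (Finset.mem_filter.1 hj).2

theorem Wd.cells (w : Wd k P f q p c D s) (hb : IntPass) {i0 : ℕ} (hc : c i0 ≤ 23)
    (hc' : 15 ≤ c i0) : ∀ j : ℕ, (∀ j', j' ≤ j → i0 + j' < k ∧ q (i0 + j') = q i0) →
      ∑ j' ∈ Finset.range j, |s (i0 + j')| ≤
        ∑ j' ∈ Finset.range j, bnd GG (c i0) j' / 10 ^ 15 ∧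
      c (i0 + j) ≤ c i0 - 8 * j + 1 ∧ c i0 - 8 * j - 1 ≤ c (i0 + j) := by
  intro j
  induction j with
  | zero => intro _; simp
  | succ j ih =>
    intro h
    obtain ⟨ih1, ih2, ih3⟩ := ih fun j' hj' => h j' (by omega)
    have hsum : ∑ j' ∈ Finset.range (j + 1), |s (i0 + j')| ≤
        ∑ j' ∈ Finset.range (j + 1), bnd GG (c i0) j' / 10 ^ 15 := by
      rw [Finset.sum_range_succ, Finset.sum_range_succ]
      refine add_le_add ih1 ((w.s2 (h j (by omega)).1).trans ?_)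
      refine div_le_div_of_nonneg_right ?_ (by positivity)
      unfold bnd
      split_ifs with hj
      · exact_mod_cast le_max3 GG _ _ ih2 ih3
      · rw [GG_out (Or.inl (by omega))]; simp
    refine ⟨hsum, ?_⟩
    have h1 : ∑ j' ∈ Finset.range (j + 1), |s (i0 + j')| ≤ 0.027 := by
      refine hsum.trans ?_
      rw [← Finset.sum_div]
      have h2 := sum_bnd GG (c i0) (j + 1)
      have h3 : (pass GG (c i0) : ℝ) ≤ 27 * 10 ^ 12 := by
        exact_mod_cast hb.passR (c i0) hc' (by omega)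
      rw [div_le_iff₀ (by positivity)]
      refine (h2.trans h3).trans ?_
      norm_num
    have h2 : ∀ m : ℕ, m ≤ j + 1 → p (i0 + m) = p i0 - m + ∑ j' ∈ Finset.range m, s (i0 + j') := by
      intro m
      induction m with
      | zero => intro _; simp
      | succ m ihm =>
        intro hm
        rw [Finset.sum_range_succ]
        have e1 := ihm (by omega)
        have e2 := w.hp (i0 + m)
        have e3 := w.hp (i0 + (m + 1))
        have e4 := w.hs (i0 + m)
        rw [(h m (by omega)).2] at e2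
        rw [(h (m + 1) hm).2] at e3
        rw [show i0 + m + 1 = i0 + (m + 1) from rfl] at e4
        push_cast
        linarith
    have h3 := h2 (j + 1) le_rfl
    have h4 : |∑ j' ∈ Finset.range (j + 1), s (i0 + j')| ≤ 0.027 :=
      (Finset.abs_sum_le_sum_abs _ _).trans h1
    obtain ⟨h5, h6⟩ := abs_le.1 h4
    have a1 := w.c1 i0
    have a2 := w.c2 i0
    have b1 := w.c1 (i0 + (j + 1))
    have b2 := w.c2 (i0 + (j + 1))
    push_cast at h3
    constructor
    · have h7 : (c (i0 + (j + 1)) : ℝ) < (c i0 : ℝ) - 8 * ((j : ℝ) + 1) + 2 := by linarith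
      have h8 : c (i0 + (j + 1)) < c i0 - 8 * ((j : ℤ) + 1) + 2 := by exact_mod_cast h7
      push_cast
      omega
    · have h7 : (c i0 : ℝ) - 8 * ((j : ℝ) + 1) - 2 < (c (i0 + (j + 1)) : ℝ) := by linarith
      have h8 : c i0 - 8 * ((j : ℤ) + 1) - 2 < c (i0 + (j + 1)) := by exact_mod_cast h7
      push_cast
      omega

theorem Wd.sum (w : Wd k P f q p c D s) (hb : IntPass) (F : ℤ → ℕ) (S B : ℝ) (hS : 0 < S)
    (hF : ∀ c : ℤ, (c < -47 ∨ 24 ≤ c) → F c = 0)
    (hpass : ∀ c : ℤ, 15 ≤ c → c < 24 → (pass F c : ℝ) ≤ B * S) (hB : 0 ≤ B)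
    (h : ℕ → ℝ) (h1 : ∀ i, i < k → h i ≤ (F (c i) : ℝ) / S) (q0 : ℤ) :
    ∑ i ∈ (Finset.range k).filter (fun i => q i = q0), h i ≤ B := by
  classical
  have hz : ∀ i, i < k → 24 ≤ c i → h i ≤ 0 := by
    intro i hi hc
    have := h1 i hi
    rwa [hF _ (Or.inr hc), Nat.cast_zero, zero_div] at this
  by_cases hA : ∃ i, i < k ∧ q i = q0 ∧ c i ≤ 23
  · obtain ⟨i0, ⟨hi0, hq0, hc0⟩, hmin⟩ : ∃ i0, (i0 < k ∧ q i0 = q0 ∧ c i0 ≤ 23) ∧
        ∀ i, i < i0 → ¬ (i < k ∧ q i = q0 ∧ c i ≤ 23) :=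
      ⟨Nat.find hA, Nat.find_spec hA, fun i hi => Nat.find_min hA hi⟩
    have hmin' : ∀ i, i < i0 → q i = q i0 → 24 ≤ c i := by
      intro i hi hq
      by_contra hcon
      exact hmin i hi ⟨by omega, by rw [hq, hq0], by omega⟩
    have hc15 := w.first hb hi0 hc0 hmin'
    rw [← Finset.sum_filter_add_sum_filter_not _ (fun i => i0 ≤ i)]
    have s2 : ∑ i ∈ ((Finset.range k).filter (fun i => q i = q0)).filter (fun i => ¬ i0 ≤ i), h i
        ≤ 0 := by
      refine Finset.sum_nonpos fun i hi => ?_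
      rw [Finset.mem_filter, Finset.mem_filter, Finset.mem_range] at hi
      exact hz i hi.1.1 (hmin' i (by omega) (by rw [hi.1.2, hq0]))
    have s1 : ∑ i ∈ ((Finset.range k).filter (fun i => q i = q0)).filter (fun i => i0 ≤ i), h i
        ≤ B := by
      have t1 : ∀ i ∈ ((Finset.range k).filter (fun i => q i = q0)).filter (fun i => i0 ≤ i),
          h i ≤ bnd F (c i0) (i - i0) / S := by
        intro i hi
        rw [Finset.mem_filter, Finset.mem_filter, Finset.mem_range] at hi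
        obtain ⟨⟨hik, hiq⟩, hi'⟩ := hi
        obtain ⟨j, rfl⟩ := Nat.exists_eq_add_of_le hi'
        refine (h1 _ hik).trans (div_le_div_of_nonneg_right ?_ hS.le)
        obtain ⟨_, h3, h4⟩ := w.cells hb hc0 hc15 j fun j' hj' => by
          refine ⟨by omega, le_antisymm ?_ ?_⟩
          · rw [hq0, ← hiq]; exact w.mono hb (by omega) (by omega)
          · exact w.mono hb (by omega) (by omega)
        rw [Nat.add_sub_cancel_left]
        unfold bnd
        split_ifs with hj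
        · exact_mod_cast le_max3 F _ _ h3 h4
        · rw [hF _ (Or.inl (by omega))]; simp
      refine (Finset.sum_le_sum t1).trans ?_
      have t2 : ((Finset.range k).filter (fun i => q i = q0)).filter (fun i => i0 ≤ i) ⊆
          Finset.Ico i0 k := by
        intro i hi
        rw [Finset.mem_filter, Finset.mem_filter, Finset.mem_range] at hi
        exact Finset.mem_Ico.2 ⟨hi.2, hi.1.1⟩
      refine (Finset.sum_le_sum_of_subset_of_nonneg t2 fun i _ _ =>
        div_nonneg (bnd_nonneg _ _ _) hS.le).trans ?_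
      rw [Finset.sum_Ico_eq_sum_range]
      simp only [Nat.add_sub_cancel_left]
      rw [← Finset.sum_div, div_le_iff₀ hS]
      exact (sum_bnd F (c i0) (k - i0)).trans (hpass _ hc15 (by omega))
    linarith
  · push Not at hA
    refine (Finset.sum_nonpos fun i hi => ?_).trans hB
    rw [Finset.mem_filter, Finset.mem_range] at hi
    exact hz i hi.1 (by have := hA i hi.1 hi.2; omega)

end

theorem wd_of (hA : StepAStmt) (hC : CycbStmt) {T x0 z : ℝ} {th : ℂ} (ctx : Ctx T x0 z th)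
    {k : ℕ} (hH : HH T x0 z th k) :
    Wd k (per th) (ph T x0 th) (cyc T x0 th) (pp T x0 th) (cell T x0 th) (Dh T x0)
      (dph T x0 th) := by
  have hA' : ∀ i, i < k → _ := fun i hi => hA T x0 z th ctx i fun i' hi' => hH i' (by omega)
  have hC' := hC T x0 z th ctx
  refine ⟨?_, fun i => rfl, fun i => rfl, fun i => (hC' i).1, fun i => (hC' i).2.1,
    fun i => (hC' i).2.2.1, fun i => (hC' i).2.2.2.1, ?_, fun i hi => (hA' i hi).2.2.2.2.2.2.2.1,
    fun i hi => (hA' i hi).2.2.2.2.2.2.2.2, fun i hi => (hA' i hi).2.2.2.1⟩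
  · have := (abs_le.1 ctx.nr.per_enc).1
    norm_num at this ⊢
    linarith
  · have h1 := (hC' 0).2.2.2.2.2.2.2
    have h2 := (hC' 0).2.2.2.1
    have h3 : (23 : ℝ) < (cell T x0 th 0 : ℝ) := by linarith
    have h4 : (23 : ℤ) < cell T x0 th 0 := by exact_mod_cast h3
    omega

theorem win (hA : StepAStmt) (hC : CycbStmt) (hb : IntPass) : WinStmt := by
  intro T x0 z th ctx k hH
  have w := wd_of hA hC ctx hH
  refine ⟨fun i hi => w.mono1 hb hi, fun q0 => ?_, fun q0 => ?_⟩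
  · refine w.sum hb Dt (10 ^ 6) 9.1 (by positivity) (fun c hc => Dt_out hc)
      (fun c h1 h2 => ?_) (by norm_num) _ w.D1 q0
    have h3 : (pass Dt c : ℝ) ≤ 9100000 := by exact_mod_cast hb.passD c h1 h2
    refine h3.trans ?_
    norm_num
  · refine w.sum hb GG (10 ^ 15) 0.027 (by positivity) (fun c hc => GG_out hc)
      (fun c h1 h2 => ?_) (by norm_num) _ (fun i hi => w.s2 hi) q0
    have h3 : (pass GG c : ℝ) ≤ 27 * 10 ^ 12 := by exact_mod_cast hb.passR c h1 h2
    refine h3.trans ?_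
    norm_num

end SA.H65
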